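import Pool.Agent.MDC.All

/-!
# MP_ffc753_co: the part of multivariate diagonal harmonics with at most two columns

The definitions `MDH.dmon`, `MDH.diffOp`, `MDH.act`, `MDH.DH`, `MDH.charOn`, `MDH.frobChar` are in
`Pool/Agent/MDH/Defs.lean`, the definitions `MDC.pol`, `MDC.hwPart`, `MDC.kapl` in
`Pool/Agent/MDC/Defs.lean`.
-/

set_option autoImplicit false

/-- Let `n ≥ 1` and `0 ≤ b ≤ a ≤ r - 1`. The space `hwPart r n a b` of the highest weight vectors of
weight `λ = (2^b, 1^(a-b))` in `DH_n^r` for the group `GL_{r-1}` acting on the first `r - 1` sets of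
variables is an `S_n`-stable space of finite dimension. Its Frobenius characteristic (the
coefficient of the Schur function `s_λ(q_1, …, q_(r-1))` in `F_{n,r}(q_1, …, q_(r-1), 1)`) is, in any
number `N` of variables, the sum of `κ c • e_c` over the compositions `c` of `n`, where the
non-negative integers `κ c` are given by an explicit generating function. In particular it is
`e`-positive. -/
theorem Pool.Agent.Results.MP_ffc753_co.TwoColumns.result :
    ∀ r n a b : ℕ, 1 ≤ n → b ≤ a → a < r →
      ∃ hV : ∀ w, ∀ p ∈ MDC.hwPart r n a b, MDH.act r n w p ∈ MDC.hwPart r n a b,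
        Module.Finite ℂ (MDC.hwPart r n a b) ∧
        ∃ κ : Composition n → ℕ,
          (∀ c, (κ c : ℤ) = MDC.kapl c.blocks a b -
            (if b = 0 then 0 else MDC.kapl c.blocks (a + 1) (b - 1))) ∧
          ∀ N : ℕ, MDH.frobChar n N (MDH.charOn (MDC.hwPart r n a b) hV) =
            ∑ c : Composition n, κ c •
              (c.blocks.map (fun k => MvPolynomial.esymm (Fin N) ℂ k)).prod :=
  MDC.all_FIN
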